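import Pool.Agent.KS6_95.PC.Vas

set_option autoImplicit false

/-!
# Linear codes with even gaps
-/

namespace Pool.Agent.KS6_95.PC

open Finset Pool.Agent.Results.MP_87e4a0_co.PerfectCodes

lemma exists_ev (r : ℕ) : ∃ e : Fin (2 ^ r) ≃ (Fin r → ZMod 2), e ⟨0, by positivity⟩ = 0 := by
  have hc : Fintype.card (Fin (2 ^ r)) = Fintype.card (Fin r → ZMod 2) := by
    simp [ZMod.card]
  let e0 := Fintype.equivOfCardEq hc
  refine ⟨e0.trans (Equiv.swap (e0 ⟨0, by positivity⟩) 0), ?_⟩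
  simp

section

variable {h r : ℕ} (e : Fin (2 ^ r) ≃ (Fin r → ZMod 2))

/-- the columns of the parity check matrix -/
def col (j : Fin h) : ZMod 2 × ZMod 2 × (Fin r → ZMod 2) :=
  (if 2 ^ r ≤ (j : ℕ) + 1 ∧ (j : ℕ) + 1 < 3 * 2 ^ r then 1 else 0,
    if 2 * 2 ^ r ≤ (j : ℕ) + 1 then 1 else 0,
    e ⟨((j : ℕ) + 1) % 2 ^ r, Nat.mod_lt _ (by positivity)⟩)

lemma quarter (m M : ℕ) (hM : 0 < M) (hm : m < 4 * M) :
    m = m % M ∨ m = M + m % M ∨ m = 2 * M + m % M ∨ m = 3 * M + m % M := by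
  have h1 := Nat.div_add_mod m M
  have h2 : m / M < 4 := by
    rw [Nat.div_lt_iff_lt_mul hM]; exact hm
  set q := m / M
  interval_cases q
  · left; omega
  · right; left; omega
  · right; right; left; omega
  · right; right; right; omega

lemma col_inj (hh : h + 1 = 4 * 2 ^ r) : Function.Injective (col e : Fin h → _) := by
  intro j l hjl
  have hM : 0 < 2 ^ r := by positivity
  simp only [col, Prod.mk.injEq] at hjl
  obtain ⟨h1, h2, h3⟩ := hjl
  have h4 : ((j : ℕ) + 1) % 2 ^ r = ((l : ℕ) + 1) % 2 ^ r := by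
    have := e.injective h3
    simpa using this
  have hj := j.isLt
  have hl := l.isLt
  have q1 := quarter ((j : ℕ) + 1) _ hM (by omega)
  have q2 := quarter ((l : ℕ) + 1) _ hM (by omega)
  have m1 := Nat.mod_lt ((j : ℕ) + 1) hM
  apply Fin.ext
  set M := 2 ^ r
  rw [← h4] at q2
  set a := ((j : ℕ) + 1) % M
  have c1 : (M ≤ (j : ℕ) + 1 ∧ (j : ℕ) + 1 < 3 * M) ↔ (M ≤ (l : ℕ) + 1 ∧ (l : ℕ) + 1 < 3 * M) := by
    by_cases u : M ≤ (j : ℕ) + 1 ∧ (j : ℕ) + 1 < 3 * M <;>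
      by_cases v : M ≤ (l : ℕ) + 1 ∧ (l : ℕ) + 1 < 3 * M <;> simp [u, v] at h1 ⊢
  have c2 : (2 * M ≤ (j : ℕ) + 1) ↔ (2 * M ≤ (l : ℕ) + 1) := by
    by_cases u : 2 * M ≤ (j : ℕ) + 1 <;>
      by_cases v : 2 * M ≤ (l : ℕ) + 1 <;> simp [u, v] at h2 ⊢
  omega

lemma col_ne (he : e ⟨0, by positivity⟩ = 0) (hh : h + 1 = 4 * 2 ^ r) (j : Fin h) :
    col e j ≠ 0 := by
  intro h0
  have hM : 0 < 2 ^ r := by positivity
  have h1 : (if 2 ^ r ≤ (j : ℕ) + 1 ∧ (j : ℕ) + 1 < 3 * 2 ^ r then (1 : ZMod 2) else 0) = 0 :=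
    congrArg Prod.fst h0
  have h2 : (if 2 * 2 ^ r ≤ (j : ℕ) + 1 then (1 : ZMod 2) else 0) = 0 :=
    congrArg (fun p => p.2.1) h0
  have h3 : e ⟨((j : ℕ) + 1) % 2 ^ r, Nat.mod_lt _ (by positivity)⟩ = 0 :=
    congrArg (fun p => p.2.2) h0
  rw [← he] at h3
  have h4 : ((j : ℕ) + 1) % 2 ^ r = 0 := by simpa using e.injective h3
  have hj := j.isLt
  have q1 := quarter ((j : ℕ) + 1) _ hM (by omega)
  set M := 2 ^ r
  have c1 : ¬ (M ≤ (j : ℕ) + 1 ∧ (j : ℕ) + 1 < 3 * M) := by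
    intro u; simp [u] at h1
  have c2 : ¬ (2 * M ≤ (j : ℕ) + 1) := by
    intro u; simp [u] at h2
  omega

lemma col_surj (he : e ⟨0, by positivity⟩ = 0) (hh : h + 1 = 4 * 2 ^ r)
    (v : ZMod 2 × ZMod 2 × (Fin r → ZMod 2)) (hv : v ≠ 0) : ∃ j : Fin h, col e j = v := by
  classical
  let g : Fin h → {v : ZMod 2 × ZMod 2 × (Fin r → ZMod 2) // v ≠ 0} :=
    fun j => ⟨col e j, col_ne e he hh j⟩
  have hb : Function.Bijective g := by
    rw [Fintype.bijective_iff_injective_and_card]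
    constructor
    · intro a b hab
      exact col_inj e hh (congrArg Subtype.val hab)
    · rw [Fintype.card_fin, Fintype.card_subtype_compl]
      simp only [Fintype.card_prod, ZMod.card, Fintype.card_fun, Fintype.card_fin,
        Fintype.card_subtype_eq]
      omega
  obtain ⟨j, hj⟩ := hb.2 ⟨v, hv⟩
  exact ⟨j, congrArg Subtype.val hj⟩

lemma VV (a : ZMod 2 × ZMod 2 × (Fin r → ZMod 2)) : a + a = 0 := by
  obtain ⟨a, b, c⟩ := a
  refine Prod.ext (zz a) (Prod.ext (zz b) ?_)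
  funext j
  exact zz (c j)

lemma lin_code (he : e ⟨0, by positivity⟩ = 0) (hh : h + 1 = 4 * 2 ^ r) :
    IsPerfectCode (cube h) {x : Str h | syn (col e) x = 0} :=
  lin_perfect VV _ (col_inj e hh) (col_ne e he hh) (col_surj e he hh)

lemma check1 {x : Str h} (hx : syn (col e) x = 0) :
    ∑ j : Fin h, (if 2 ^ r ≤ (j : ℕ) + 1 ∧ (j : ℕ) + 1 < 3 * 2 ^ r then bt (x j) else 0) = 0 := by
  have h1 : (syn (col e) x).1 = 0 := by rw [hx]; rfl
  unfold syn at h1
  rw [Prod.fst_sum] at h1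
  refine Eq.trans (Finset.sum_congr rfl ?_) h1
  intro j _
  cases hxj : x j
  · simp [bt]
  · simp [bt, col]

lemma check2 {x : Str h} (hx : syn (col e) x = 0) :
    ∑ j : Fin h, (if 2 * 2 ^ r ≤ (j : ℕ) + 1 then bt (x j) else 0) = 0 := by
  have h1 : (syn (col e) x).2.1 = 0 := by rw [hx]; rfl
  unfold syn at h1
  rw [Prod.snd_sum, Prod.fst_sum] at h1
  refine Eq.trans (Finset.sum_congr rfl ?_) h1
  intro j _
  cases hxj : x j
  · simp [bt]
  · simp [bt, col]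

lemma pre_sub {i i' : ℕ} (hii : i ≤ i') (w : Str h) :
    pre i' w = pre i w + ∑ j : Fin h, (if i ≤ (j : ℕ) ∧ (j : ℕ) < i' then bt (w j) else 0) := by
  unfold pre
  rw [← Finset.sum_add_distrib]
  apply Finset.sum_congr rfl
  intro j _
  by_cases h1 : (j : ℕ) < i
  · rw [if_pos (by omega), if_pos h1, if_neg (by omega), add_zero]
  · rw [if_neg h1, zero_add]
    by_cases h2 : (j : ℕ) < i'
    · rw [if_pos h2, if_pos ⟨by omega, h2⟩]
    · rw [if_neg h2, if_neg (by omega)]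

lemma evenGaps {k : ℕ} (hh : h + 1 = 4 * 2 ^ r) (hk : 2 * k + 2 = 3 * 2 ^ r) :
    EvenGaps k {x : Str h | syn (col e) x = 0} := by
  have hM : 0 < 2 ^ r := by positivity
  have main : ∀ w : Str h, syn (col e) w = 0 → ∀ i i', i ≤ i' → ZW k i w → ZW k i' w →
      pre i w = pre i' w := by
    intro w hw i i' hii h1 h2
    have c1 := check1 e hw
    have c2 := check2 e hw
    obtain ⟨hi, hz⟩ := h1
    obtain ⟨hi', hz'⟩ := h2
    rw [pre_sub hii w]
    set M := 2 ^ r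
    suffices hs : ∑ j : Fin h, (if i ≤ (j : ℕ) ∧ (j : ℕ) < i' then bt (w j) else 0) = 0 by
      rw [hs, add_zero]
    have bf : bt false = 0 := rfl
    by_cases hcase : i' ≤ i + k
    · apply Finset.sum_eq_zero
      intro j _
      by_cases hj : i ≤ (j : ℕ) ∧ (j : ℕ) < i'
      · rw [if_pos hj, hz j hj.1 (by omega), bf]
      · rw [if_neg hj]
    · by_cases hiM : i + 1 ≤ M
      · refine Eq.trans (Finset.sum_congr rfl ?_) c1
        intro j _
        have hjl := j.isLt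
        by_cases hw1 : w j = true
        · have n1 : ¬ (i ≤ (j : ℕ) ∧ (j : ℕ) < i + k) := by
            rintro ⟨a, b⟩
            rw [hz j a b] at hw1; exact absurd hw1 (by simp)
          have n2 : ¬ (i' ≤ (j : ℕ) ∧ (j : ℕ) < i' + k) := by
            rintro ⟨a, b⟩
            rw [hz' j a b] at hw1; exact absurd hw1 (by simp)
          have hiff : (i ≤ (j : ℕ) ∧ (j : ℕ) < i') ↔
              (M ≤ (j : ℕ) + 1 ∧ (j : ℕ) + 1 < 3 * M) := by
            constructor <;> intro hx <;> omega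
          by_cases hc : i ≤ (j : ℕ) ∧ (j : ℕ) < i'
          · rw [if_pos hc, if_pos (hiff.1 hc)]
          · rw [if_neg hc, if_neg (fun h' => hc (hiff.2 h'))]
        · have : w j = false := by simpa using hw1
          rw [this, bf, ite_self, ite_self]
      · refine Eq.trans (Finset.sum_congr rfl ?_) c2
        intro j _
        have hjl := j.isLt
        by_cases hw1 : w j = true
        · have n1 : ¬ (i ≤ (j : ℕ) ∧ (j : ℕ) < i + k) := by
            rintro ⟨a, b⟩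
            rw [hz j a b] at hw1; exact absurd hw1 (by simp)
          have n2 : ¬ (i' ≤ (j : ℕ) ∧ (j : ℕ) < i' + k) := by
            rintro ⟨a, b⟩
            rw [hz' j a b] at hw1; exact absurd hw1 (by simp)
          have hiff : (i ≤ (j : ℕ) ∧ (j : ℕ) < i') ↔ (2 * M ≤ (j : ℕ) + 1) := by
            constructor <;> intro hx <;> omega
          by_cases hc : i ≤ (j : ℕ) ∧ (j : ℕ) < i'
          · rw [if_pos hc, if_pos (hiff.1 hc)]
          · rw [if_neg hc, if_neg (fun h' => hc (hiff.2 h'))]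
        · have : w j = false := by simpa using hw1
          rw [this, bf, ite_self, ite_self]
  intro w hw i i' h1 h2
  rcases le_total i i' with hii | hii
  · exact main w hw i i' hii h1 h2
  · exact (main w hw i' i hii h2 h1).symm

end

/-- Perfect codes of `Q_n`, `n = 8 M - 1`, without `11 M / 2 - 1` consecutive ones (`M = 2 ^ r`,
`r ≥ 1`). -/
theorem exists_long (r : ℕ) (hr : 1 ≤ r) : ∃ D : Set (Str (8 * 2 ^ r - 1)),
    IsPerfectCode (cube (8 * 2 ^ r - 1)) D ∧ ∀ v ∈ D, ¬ HasRun (11 * 2 ^ (r - 1) - 1) v := by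
  obtain ⟨e, he⟩ := exists_ev r
  obtain ⟨t, rfl⟩ : ∃ t, r = t + 1 := ⟨r - 1, by omega⟩
  have hM : 0 < 2 ^ t := by positivity
  have hpow : 2 ^ (t + 1) = 2 * 2 ^ t := by ring
  obtain ⟨h, hh⟩ : ∃ h, h + 1 = 4 * 2 ^ (t + 1) := ⟨4 * 2 ^ (t + 1) - 1, by omega⟩
  obtain ⟨k, hk⟩ : ∃ k, 2 * k + 2 = 3 * 2 ^ (t + 1) := ⟨3 * 2 ^ t - 1, by omega⟩
  have hodd : Odd h := ⟨2 * 2 ^ (t + 1) - 1, by omega⟩
  have hE := evenGaps (h := h) e hh hk
  have h1 := vas_perfect (lin_code (h := h) e he hh) (lam k)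
  have h2 := vas_no_run hodd hE
  have e1 : 2 * h + 1 = 8 * 2 ^ (t + 1) - 1 := by omega
  have e2 : h + 1 + k = 11 * 2 ^ (t + 1 - 1) - 1 := by
    rw [Nat.add_sub_cancel]; omega
  rw [e2] at h2
  rw [← e1]
  exact ⟨_, h1, h2⟩

end Pool.Agent.KS6_95.PC
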