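import Pool.Graph.R_seed8.Results.MP_87e4a0_co.PerfectCodes

set_option autoImplicit false

/-!
# Perfect codes of the hypercube with two empty faces: a counting inequality
-/

namespace Pool.Agent.KS6_95.PC

open Finset Pool.Agent.Results.MP_87e4a0_co.PerfectCodes

variable {n : ℕ}

lemma cube_perfect_iff (D : Set (Str n)) :
    IsPerfectCode (cube n) D ↔ ∀ v, ∃! c, c ∈ D ∧ Near v c := by
  have hiff : ∀ v c : Str n, (v = c ∨ (cube n).Adj c v) ↔ Near v c := by
    intro v c
    rw [adj_iff]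
    constructor
    · intro hh; exact Near.symm hh
    · intro hh; exact hh.symm
  unfold IsPerfectCode
  simp only [hiff]

lemma fib_of_cube {s : ℕ} (C : Set {x : Str n // ¬ HasRun s x})
    (h : IsPerfectCode (cube n) (Subtype.val '' C)) : IsPerfectCode (fibCube n s) C := by
  rw [cube_perfect_iff] at h
  have hadj : ∀ x y : {x : Str n // ¬ HasRun s x}, (fibCube n s).Adj x y ↔
      ∃ i, y.1 = flip x.1 i := by
    intro x y
    rw [← adj_iff]
    rfl
  have hnear : ∀ v c : {x : Str n // ¬ HasRun s x}, (v = c ∨ (fibCube n s).Adj c v) ↔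
      Near v.1 c.1 := by
    intro v c
    rw [hadj]
    constructor
    · rintro (rfl | ⟨i, hi⟩)
      · exact Or.inl rfl
      · exact Near.symm (Or.inr ⟨i, hi⟩)
    · intro hn
      rcases hn.symm with h | h
      · exact Or.inl (Subtype.ext h)
      · exact Or.inr h
  intro v
  obtain ⟨_, ⟨⟨c, hc, rfl⟩, hn⟩, hu⟩ := h v.1
  refine ⟨c, ⟨hc, (hnear v c).2 hn⟩, ?_⟩
  rintro d ⟨hd, hdn⟩
  exact Subtype.ext (hu d.1 ⟨⟨d, hd, rfl⟩, (hnear v d).1 hdn⟩)

lemma exists_fib {s : ℕ} (D : Set (Str n)) (h : IsPerfectCode (cube n) D)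
    (hr : ∀ c ∈ D, ¬ HasRun s c) :
    ∃ C : Set {x : Str n // ¬ HasRun s x}, IsPerfectCode (fibCube n s) C := by
  refine ⟨{x | x.1 ∈ D}, fib_of_cube _ ?_⟩
  have : (Subtype.val '' {x : {x : Str n // ¬ HasRun s x} | x.1 ∈ D}) = D := by
    ext c
    constructor
    · rintro ⟨x, hx, rfl⟩; exact hx
    · intro hc; exact ⟨⟨c, hr c hc⟩, hc, rfl⟩
  rw [this]; exact h

lemma HasRun.of_le {s t : ℕ} (hst : s ≤ t) {x : Str n} (h : HasRun t x) : HasRun s x := by
  obtain ⟨k, hk, hr⟩ := h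
  exact ⟨k, by omega, fun j h1 h2 => hr j h1 (by omega)⟩

/-! ### the counting inequality -/

open Classical in
noncomputable def fi (D : Set (Str n)) (z : Str n) : ℤ := if z ∈ D then 1 else 0

lemma fi_nonneg (D : Set (Str n)) (z : Str n) : 0 ≤ fi D z := by
  unfold fi; split_ifs <;> norm_num

lemma cover_eq {D : Set (Str n)} (h : IsPerfectCode (cube n) D) (v : Str n) :
    fi D v + ∑ i, fi D (flip v i) = 1 := by
  classical
  rw [cube_perfect_iff] at h
  obtain ⟨c, ⟨hc, hn⟩, hu⟩ := h v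
  have e : fi D v + ∑ i, fi D (flip v i) = ∑ o : Option (Fin n), fi D (nb v o) := by
    rw [Fintype.sum_option]; rfl
  rw [e]
  obtain ⟨o, rfl⟩ := (near_iff v c).1 hn
  rw [Finset.sum_eq_single o]
  · unfold fi; rw [if_pos hc]
  · intro o' _ hne
    unfold fi
    rw [if_neg]
    intro hc'
    exact hne (nb_inj v (hu _ ⟨hc', (near_iff _ _).2 ⟨o', rfl⟩⟩))
  · intro h'; exact absurd (Finset.mem_univ o) h'

/-- the vertex of the face with free coordinates `R`, zeros at `Z` and ones elsewhere -/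
def vz (R Z : Finset (Fin n)) (x : Str n) : Str n :=
  fun j => if j ∈ R then x j else decide (j ∉ Z)

lemma flip_vz_R {R Z : Finset (Fin n)} {i : Fin n} (hi : i ∈ R) (x : Str n) :
    flip (vz R Z x) i = vz R Z (flip x i) := by
  funext j
  by_cases hj : j = i
  · subst hj
    rw [flip_same]
    simp [vz, hi, flip_same]
  · rw [flip_ne _ hj]
    unfold vz
    rw [flip_ne _ hj]

lemma flip_vz_Z {R Z : Finset (Fin n)} {i : Fin n} (hi : i ∉ R) (hz : i ∈ Z) (x : Str n) :
    flip (vz R Z x) i = vz R (Z.erase i) x := by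
  funext j
  by_cases hj : j = i
  · subst hj
    rw [flip_same]
    simp [vz, hi, hz]
  · rw [flip_ne _ hj]
    simp [vz, hj]

lemma flip_vz_N {R Z : Finset (Fin n)} {i : Fin n} (hi : i ∉ R) (hz : i ∉ Z) (x : Str n) :
    flip (vz R Z x) i = vz R (insert i Z) x := by
  funext j
  by_cases hj : j = i
  · subst hj
    rw [flip_same]
    simp [vz, hi, hz]
  · rw [flip_ne _ hj]
    simp [vz, hj]

noncomputable def cc (D : Set (Str n)) (R Z : Finset (Fin n)) : ℤ :=
  ∑ x : Str n, fi D (vz R Z x)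

lemma cc_nonneg (D : Set (Str n)) (R Z : Finset (Fin n)) : 0 ≤ cc D R Z :=
  Finset.sum_nonneg fun x _ => fi_nonneg D _

def flipEquiv (i : Fin n) : Str n ≃ Str n :=
  ⟨fun x => flip x i, fun x => flip x i, fun x => flip_flip x i, fun x => flip_flip x i⟩

lemma sum_flip_R (D : Set (Str n)) {R Z : Finset (Fin n)} {i : Fin n} (hi : i ∈ R) :
    ∑ x : Str n, fi D (flip (vz R Z x) i) = cc D R Z := by
  unfold cc
  rw [← Equiv.sum_comp (flipEquiv i) (fun x => fi D (vz R Z x))]
  apply Finset.sum_congr rfl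
  intro x _
  rw [flip_vz_R hi]
  rfl

lemma cover_cc {D : Set (Str n)} (h : IsPerfectCode (cube n) D) {R Z : Finset (Fin n)}
    (hd : Disjoint R Z) :
    (1 + (R.card : ℤ)) * cc D R Z + ∑ i ∈ Z, cc D R (Z.erase i) +
      ∑ i ∈ (R ∪ Z)ᶜ, cc D R (insert i Z) = 2 ^ n := by
  classical
  have h1 : ∑ x : Str n, (fi D (vz R Z x) + ∑ i, fi D (flip (vz R Z x) i)) = 2 ^ n := by
    simp_rw [cover_eq h]
    simp [Fintype.card_bool]
  rw [Finset.sum_add_distrib, Finset.sum_comm] at h1
  have h2 : ∑ i, ∑ x : Str n, fi D (flip (vz R Z x) i) =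
      (∑ i ∈ R, ∑ x : Str n, fi D (flip (vz R Z x) i)) +
      (∑ i ∈ Z, ∑ x : Str n, fi D (flip (vz R Z x) i)) +
      ∑ i ∈ (R ∪ Z)ᶜ, ∑ x : Str n, fi D (flip (vz R Z x) i) := by
    rw [← Finset.sum_union hd, Finset.sum_add_sum_compl]
  rw [h2] at h1
  have e1 : ∑ i ∈ R, ∑ x : Str n, fi D (flip (vz R Z x) i) = (R.card : ℤ) * cc D R Z := by
    rw [Finset.sum_congr rfl (fun i hi => sum_flip_R D hi), Finset.sum_const, nsmul_eq_mul]
  have e2 : ∑ i ∈ Z, ∑ x : Str n, fi D (flip (vz R Z x) i) = ∑ i ∈ Z, cc D R (Z.erase i) := by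
    apply Finset.sum_congr rfl
    intro i hi
    unfold cc
    apply Finset.sum_congr rfl
    intro x _
    rw [flip_vz_Z (fun hR => (Finset.disjoint_left.1 hd hR) hi) hi]
  have e3 : ∑ i ∈ (R ∪ Z)ᶜ, ∑ x : Str n, fi D (flip (vz R Z x) i) =
      ∑ i ∈ (R ∪ Z)ᶜ, cc D R (insert i Z) := by
    apply Finset.sum_congr rfl
    intro i hi
    rw [Finset.mem_compl, Finset.mem_union, not_or] at hi
    unfold cc
    apply Finset.sum_congr rfl
    intro x _
    rw [flip_vz_N hi.1 hi.2]
  rw [e1, e2, e3] at h1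
  have e0 : ∑ x : Str n, fi D (vz R Z x) = cc D R Z := rfl
  rw [e0] at h1
  linarith

lemma pack_cc {D : Set (Str n)} (h : IsPerfectCode (cube n) D) {R Z : Finset (Fin n)}
    (hd : Disjoint R Z) : (1 + (R.card : ℤ)) * cc D R Z ≤ 2 ^ n := by
  have h1 := cover_cc h hd
  have h2 : 0 ≤ ∑ i ∈ Z, cc D R (Z.erase i) := Finset.sum_nonneg fun i _ => cc_nonneg _ _ _
  have h3 : 0 ≤ ∑ i ∈ (R ∪ Z)ᶜ, cc D R (insert i Z) :=
    Finset.sum_nonneg fun i _ => cc_nonneg _ _ _
  linarith

lemma cc_zero {D : Set (Str n)} {R Z : Finset (Fin n)}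
    (hz : ∀ c ∈ D, ¬ (∀ j, j ∉ R → j ∉ Z → c j = true)) : cc D R Z = 0 := by
  classical
  unfold cc
  apply Finset.sum_eq_zero
  intro x _
  unfold fi
  rw [if_neg]
  intro hc
  refine hz _ hc fun j h1 h2 => ?_
  simp [vz, h1, h2]

/-- **Two empty faces.** A perfect code of `Q_n` none of whose words contains `Φ ∪ A` or `Φ ∪ B`
satisfies `(1 + |R|) (1 + |R| + |A| + |B| - |Φ|) ≤ 2 |A| |B|`, where `R` is the complement of
`Φ ∪ A ∪ B`. -/
theorem two_faces {D : Set (Str n)} (h : IsPerfectCode (cube n) D) (F A B R : Finset (Fin n))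
    (hFA : Disjoint F A) (hFB : Disjoint F B) (hAB : Disjoint A B)
    (hR : R = (F ∪ A ∪ B)ᶜ)
    (h1 : ∀ c ∈ D, ¬ ∀ j, j ∈ F ∪ A → c j = true)
    (h2 : ∀ c ∈ D, ¬ ∀ j, j ∈ F ∪ B → c j = true) :
    (1 + (R.card : ℤ)) * (1 + R.card + A.card + B.card - F.card) ≤ 2 * (A.card * B.card) := by
  classical
  have dR : ∀ {i}, i ∈ R → i ∉ F ∧ i ∉ A ∧ i ∉ B := by
    intro i hi
    rw [hR] at hi
    simp only [Finset.mem_compl, Finset.mem_union, not_or] at hi
    exact ⟨hi.1.1, hi.1.2, hi.2⟩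
  have dF : ∀ {i}, i ∈ F → i ∉ A ∧ i ∉ B ∧ i ∉ R := by
    intro i hi
    exact ⟨Finset.disjoint_left.1 hFA hi, Finset.disjoint_left.1 hFB hi, fun h' => (dR h').1 hi⟩
  have dA : ∀ {i}, i ∈ A → i ∉ F ∧ i ∉ B ∧ i ∉ R := by
    intro i hi
    exact ⟨Finset.disjoint_right.1 hFA hi, Finset.disjoint_left.1 hAB hi,
      fun h' => (dR h').2.1 hi⟩
  have dB : ∀ {i}, i ∈ B → i ∉ F ∧ i ∉ A ∧ i ∉ R := by
    intro i hi
    exact ⟨Finset.disjoint_right.1 hFB hi, Finset.disjoint_right.1 hAB hi,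
      fun h' => (dR h').2.2 hi⟩
  -- vanishing
  have zB : ∀ Z : Finset (Fin n), Z ⊆ B → cc D R Z = 0 := by
    intro Z hZ
    apply cc_zero
    intro c hc hh
    refine h1 c hc fun j hj => hh j ?_ ?_
    · rcases Finset.mem_union.1 hj with hj | hj
      · exact (dF hj).2.2
      · exact (dA hj).2.2
    · intro hjZ
      rcases Finset.mem_union.1 hj with hj | hj
      · exact (dF hj).2.1 (hZ hjZ)
      · exact (dA hj).2.1 (hZ hjZ)
  have zA : ∀ Z : Finset (Fin n), Z ⊆ A → cc D R Z = 0 := by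
    intro Z hZ
    apply cc_zero
    intro c hc hh
    refine h2 c hc fun j hj => hh j ?_ ?_
    · rcases Finset.mem_union.1 hj with hj | hj
      · exact (dF hj).2.2
      · exact (dB hj).2.2
    · intro hjZ
      rcases Finset.mem_union.1 hj with hj | hj
      · exact (dF hj).1 (hZ hjZ)
      · exact (dB hj).2.1 (hZ hjZ)
  -- the complement of `R`
  have hcompl : ∀ i, (R ∪ {i})ᶜ = ((F ∪ A ∪ B).erase i) := by
    intro i
    ext j
    simp only [hR, Finset.mem_compl, Finset.mem_union, Finset.mem_singleton, Finset.mem_erase,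
      not_or, not_not]
    tauto
  have splitsum : ∀ g : Fin n → ℤ, ∑ i ∈ F ∪ A ∪ B, g i = ∑ i ∈ F, g i + ∑ i ∈ A, g i +
      ∑ i ∈ B, g i := by
    intro g
    rw [Finset.sum_union, Finset.sum_union hFA]
    rw [Finset.disjoint_union_left]
    exact ⟨hFB, hAB⟩
  have c0 : cc D R ∅ = 0 := zA ∅ (Finset.empty_subset _)
  -- (3)
  have e3 : ∑ i ∈ F, cc D R {i} = 2 ^ n := by
    have := cover_cc h (R := R) (Z := ∅) (Finset.disjoint_empty_right _)
    rw [c0, Finset.sum_empty, Finset.union_empty] at this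
    have hc : Rᶜ = F ∪ A ∪ B := by rw [hR, compl_compl]
    rw [hc, splitsum] at this
    rw [Finset.sum_eq_zero (s := A) (fun i hi => ?_),
      Finset.sum_eq_zero (s := B) (fun i hi => ?_)] at this
    · simpa using this
    · exact zB _ (by simpa using hi)
    · exact zA _ (by simpa using hi)
  -- pairs
  set P : Fin n → Fin n → ℤ := fun i j => cc D R {i, j} with hP
  have Psymm : ∀ i j, P i j = P j i := by
    intro i j
    simp only [hP, Finset.pair_comm]
  have Pnn : ∀ i j, 0 ≤ P i j := fun i j => cc_nonneg _ _ _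
  have single : ∀ j, j ∉ R → (1 + (R.card : ℤ)) * cc D R {j} + ∑ i ∈ (F ∪ A ∪ B).erase j, P i j
      = 2 ^ n := by
    intro j hj
    have := cover_cc h (R := R) (Z := {j}) (Finset.disjoint_singleton_right.2 hj)
    rw [Finset.sum_singleton, Finset.erase_singleton, c0, hcompl] at this
    simpa [hP] using this
  have eA : ∀ a ∈ A, ∑ i ∈ F, P i a + ∑ i ∈ B, P i a = 2 ^ n := by
    intro a ha
    have h5 := single a (dA ha).2.2
    rw [zA {a} (by simpa using ha), mul_zero, zero_add] at h5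
    have h6 : ∑ i ∈ (F ∪ A ∪ B).erase a, P i a = ∑ i ∈ F ∪ B, P i a := by
      symm
      apply Finset.sum_subset
      · intro i hi
        rw [Finset.mem_erase]
        rcases Finset.mem_union.1 hi with hi | hi
        · refine ⟨?_, by simp [hi]⟩
          rintro rfl; exact (dF hi).1 ha
        · refine ⟨?_, by simp [hi]⟩
          rintro rfl; exact (dB hi).2.1 ha
      · intro i hi hni
        simp only [Finset.mem_erase, Finset.mem_union, not_or] at hi hni
        have hiA : i ∈ A := by tauto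
        apply zA
        intro j hj
        simp only [Finset.mem_insert, Finset.mem_singleton] at hj
        rcases hj with rfl | rfl
        · exact hiA
        · exact ha
    rw [h6, Finset.sum_union hFB] at h5
    exact h5
  have eB : ∀ b ∈ B, ∑ i ∈ F, P i b + ∑ i ∈ A, P i b = 2 ^ n := by
    intro a ha
    have h5 := single a (dB ha).2.2
    rw [zB {a} (by simpa using ha), mul_zero, zero_add] at h5
    have h6 : ∑ i ∈ (F ∪ A ∪ B).erase a, P i a = ∑ i ∈ F ∪ A, P i a := by
      symm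
      apply Finset.sum_subset
      · intro i hi
        rw [Finset.mem_erase]
        rcases Finset.mem_union.1 hi with hi | hi
        · refine ⟨?_, by simp [hi]⟩
          rintro rfl; exact (dF hi).2.1 ha
        · refine ⟨?_, by simp [hi]⟩
          rintro rfl; exact (dA hi).2.1 ha
      · intro i hi hni
        simp only [Finset.mem_erase, Finset.mem_union, not_or] at hi hni
        have hiA : i ∈ B := by tauto
        apply zB
        intro j hj
        simp only [Finset.mem_insert, Finset.mem_singleton] at hj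
        rcases hj with rfl | rfl
        · exact hiA
        · exact ha
    rw [h6, Finset.sum_union hFA] at h5
    exact h5
  have eF : ∀ f ∈ F, (1 + (R.card : ℤ)) * cc D R {f} + ∑ i ∈ A, P i f + ∑ i ∈ B, P i f
      ≤ 2 ^ n := by
    intro f hf
    have h5 := single f (dF hf).2.2
    have h6 : ∑ i ∈ A ∪ B, P i f ≤ ∑ i ∈ (F ∪ A ∪ B).erase f, P i f := by
      apply Finset.sum_le_sum_of_subset_of_nonneg
      · intro i hi
        rw [Finset.mem_erase]
        rcases Finset.mem_union.1 hi with hi | hi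
        · refine ⟨?_, by simp [hi]⟩
          rintro rfl; exact (dA hi).1 hf
        · refine ⟨?_, by simp [hi]⟩
          rintro rfl; exact (dB hi).1 hf
      · intro i _ _; exact Pnn _ _
    rw [Finset.sum_union hAB] at h6
    linarith
  -- sums
  have sF := Finset.sum_le_sum eF
  rw [Finset.sum_add_distrib, Finset.sum_add_distrib, ← Finset.mul_sum, e3, Finset.sum_const,
    nsmul_eq_mul] at sF
  have sA : ∑ a ∈ A, ∑ i ∈ F, P i a + ∑ a ∈ A, ∑ i ∈ B, P i a = (A.card : ℤ) * 2 ^ n := by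
    rw [← Finset.sum_add_distrib, Finset.sum_congr rfl eA, Finset.sum_const, nsmul_eq_mul]
  have sB : ∑ a ∈ B, ∑ i ∈ F, P i a + ∑ a ∈ B, ∑ i ∈ A, P i a = (B.card : ℤ) * 2 ^ n := by
    rw [← Finset.sum_add_distrib, Finset.sum_congr rfl eB, Finset.sum_const, nsmul_eq_mul]
  have c1 : ∑ f ∈ F, ∑ i ∈ A, P i f = ∑ a ∈ A, ∑ i ∈ F, P i a := by
    rw [Finset.sum_comm]
    exact Finset.sum_congr rfl fun a _ => Finset.sum_congr rfl fun f _ => Psymm _ _
  have c2 : ∑ f ∈ F, ∑ i ∈ B, P i f = ∑ a ∈ B, ∑ i ∈ F, P i a := by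
    rw [Finset.sum_comm]
    exact Finset.sum_congr rfl fun a _ => Finset.sum_congr rfl fun f _ => Psymm _ _
  have c3 : ∑ a ∈ B, ∑ i ∈ A, P i a = ∑ a ∈ A, ∑ i ∈ B, P i a := by
    rw [Finset.sum_comm]
    exact Finset.sum_congr rfl fun a _ => Finset.sum_congr rfl fun f _ => Psymm _ _
  set G := ∑ a ∈ A, ∑ i ∈ B, P i a with hG
  have hGle : (1 + (R.card : ℤ)) * G ≤ (A.card : ℤ) * (B.card * 2 ^ n) := by
    rw [hG, Finset.mul_sum]
    calc ∑ a ∈ A, (1 + (R.card : ℤ)) * ∑ i ∈ B, P i a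
        ≤ ∑ a ∈ A, (B.card : ℤ) * 2 ^ n := by
          apply Finset.sum_le_sum
          intro a ha
          rw [Finset.mul_sum]
          calc ∑ i ∈ B, (1 + (R.card : ℤ)) * P i a ≤ ∑ i ∈ B, (2 : ℤ) ^ n := by
                apply Finset.sum_le_sum
                intro i hi
                apply pack_cc h
                rw [Finset.disjoint_left]
                intro j hj hj'
                simp only [Finset.mem_insert, Finset.mem_singleton] at hj'
                rcases hj' with rfl | rfl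
                · exact (dB hi).2.2 hj
                · exact (dA ha).2.2 hj
            _ = (B.card : ℤ) * 2 ^ n := by rw [Finset.sum_const, nsmul_eq_mul]
      _ = (A.card : ℤ) * (B.card * 2 ^ n) := by rw [Finset.sum_const, nsmul_eq_mul]
  rw [c1, c2] at sF
  rw [c3] at sB
  have hpos : (0 : ℤ) < 2 ^ n := by positivity
  have key : (1 + (R.card : ℤ) + A.card + B.card - F.card) * 2 ^ n ≤ 2 * G := by
    nlinarith
  have hR0 : (0 : ℤ) ≤ 1 + R.card := by positivity
  have key2 : ((1 + (R.card : ℤ)) * (1 + R.card + A.card + B.card - F.card)) * 2 ^ n ≤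
      (2 * (A.card * B.card)) * 2 ^ n := by
    calc ((1 + (R.card : ℤ)) * (1 + R.card + A.card + B.card - F.card)) * 2 ^ n
        = (1 + (R.card : ℤ)) * ((1 + R.card + A.card + B.card - F.card) * 2 ^ n) := by ring
      _ ≤ (1 + (R.card : ℤ)) * (2 * G) := mul_le_mul_of_nonneg_left key hR0
      _ = 2 * ((1 + (R.card : ℤ)) * G) := by ring
      _ ≤ 2 * ((A.card : ℤ) * (B.card * 2 ^ n)) := by linarith
      _ = (2 * (A.card * B.card)) * 2 ^ n := by ring
  exact le_of_mul_le_mul_right key2 hpos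

end Pool.Agent.KS6_95.PC
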