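import Pool.Agent.KS6_95.PC.Low

set_option autoImplicit false

/-!
# Vasil'ev codes without long runs of ones
-/

namespace Pool.Agent.KS6_95.PC

open Finset Pool.Agent.Results.MP_87e4a0_co.PerfectCodes

/-- A letter as an element of `ZMod 2`. -/
def bt (t : Bool) : ZMod 2 := if t then 1 else 0

lemma bt_not (t : Bool) : bt (!t) = bt t + 1 := by cases t <;> decide

lemma bt_xor (s t : Bool) : bt (xor s t) = bt s + bt t := by cases s <;> cases t <;> decide

lemma zcases (a b : ZMod 2) : a = b ∨ a = b + 1 := by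
  revert a b; decide

lemma zne (a : ZMod 2) : a ≠ a + 1 := by revert a; decide

variable {h : ℕ}

def ix (j : Fin h) : Fin (2 * h + 1) := ⟨j, by omega⟩
def im (h : ℕ) : Fin (2 * h + 1) := ⟨h, by omega⟩
def iy (j : Fin h) : Fin (2 * h + 1) := ⟨h + 1 + j, by omega⟩

lemma idx_cases (i : Fin (2 * h + 1)) : (∃ j, i = ix j) ∨ i = im h ∨ ∃ j, i = iy j := by
  rcases lt_trichotomy (i : ℕ) h with h1 | h1 | h1
  · exact Or.inl ⟨⟨i, h1⟩, rfl⟩
  · exact Or.inr (Or.inl (Fin.ext h1))
  · refine Or.inr (Or.inr ⟨⟨i - (h + 1), by omega⟩, Fin.ext ?_⟩)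
    simp only [iy]; omega

lemma ix_ne_im (j : Fin h) : ix j ≠ im h := by
  intro e; have := congrArg Fin.val e; simp only [ix, im] at this; omega

lemma iy_ne_im (j : Fin h) : iy j ≠ im h := by
  intro e; have := congrArg Fin.val e; simp only [iy, im] at this; omega

lemma ix_ne_iy (j l : Fin h) : ix j ≠ iy l := by
  intro e; have := congrArg Fin.val e; simp only [ix, iy] at this; omega

lemma ix_inj {j l : Fin h} (e : ix j = ix l) : j = l := by
  have := congrArg Fin.val e; simp only [ix] at this; exact Fin.ext this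

lemma iy_inj {j l : Fin h} (e : iy j = iy l) : j = l := by
  have := congrArg Fin.val e; simp only [iy] at this; apply Fin.ext; omega

def XX (v : Str (2 * h + 1)) : Str h := fun j => v (ix j)
def YY (v : Str (2 * h + 1)) : Str h := fun j => v (iy j)
def WW (v : Str (2 * h + 1)) : Str h := fun j => xor (v (ix j)) (v (iy j))
def par (x : Str h) : ZMod 2 := ∑ j, bt (x j)

lemma par_flip (x : Str h) (i : Fin h) : par (flip x i) = par x + 1 := by
  unfold par
  rw [← Finset.add_sum_erase _ _ (Finset.mem_univ i), ← Finset.add_sum_erase _ _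
    (Finset.mem_univ i), flip_same, bt_not]
  have : ∑ j ∈ Finset.univ.erase i, bt (flip x i j) = ∑ j ∈ Finset.univ.erase i, bt (x j) := by
    apply Finset.sum_congr rfl
    intro j hj
    rw [flip_ne _ (Finset.ne_of_mem_erase hj)]
  rw [this]; ring

lemma XX_ix (v : Str (2 * h + 1)) (i : Fin h) : XX (flip v (ix i)) = flip (XX v) i := by
  funext j
  by_cases hj : j = i
  · subst hj; simp [XX, flip_same]
  · rw [flip_ne _ hj]
    simp only [XX]
    rw [flip_ne _ (fun e => hj (ix_inj e))]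

lemma XX_iy (v : Str (2 * h + 1)) (i : Fin h) : XX (flip v (iy i)) = XX v := by
  funext j
  simp only [XX]
  rw [flip_ne _ (ix_ne_iy j i)]

lemma XX_im (v : Str (2 * h + 1)) : XX (flip v (im h)) = XX v := by
  funext j
  simp only [XX]
  rw [flip_ne _ (ix_ne_im j)]

lemma WW_ix (v : Str (2 * h + 1)) (i : Fin h) : WW (flip v (ix i)) = flip (WW v) i := by
  funext j
  simp only [WW]
  rw [flip_ne _ (ix_ne_iy i j).symm]
  by_cases hj : j = i
  · subst hj; simp [WW, flip_same]
  · rw [flip_ne _ hj, flip_ne _ (fun e => hj (ix_inj e))]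
    rfl

lemma WW_iy (v : Str (2 * h + 1)) (i : Fin h) : WW (flip v (iy i)) = flip (WW v) i := by
  funext j
  simp only [WW]
  rw [flip_ne _ (ix_ne_iy j i)]
  by_cases hj : j = i
  · subst hj; simp [WW, flip_same]
  · rw [flip_ne _ hj, flip_ne _ (fun e => hj (iy_inj e))]
    rfl

lemma WW_im (v : Str (2 * h + 1)) : WW (flip v (im h)) = WW v := by
  funext j
  simp only [WW]
  rw [flip_ne _ (ix_ne_im j), flip_ne _ (iy_ne_im j)]

/-- The Vasil'ev code of `C` and `lam`. -/
def vas (C : Set (Str h)) (lam : Str h → ZMod 2) : Set (Str (2 * h + 1)) :=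
  {v | WW v ∈ C ∧ bt (v (im h)) = par (XX v) + lam (WW v)}

lemma mid_ix (v : Str (2 * h + 1)) (i : Fin h) : flip v (ix i) (im h) = v (im h) :=
  flip_ne _ (ix_ne_im i).symm

lemma mid_iy (v : Str (2 * h + 1)) (i : Fin h) : flip v (iy i) (im h) = v (im h) :=
  flip_ne _ (iy_ne_im i).symm

/-- the word `WW` of a neighbour, and the defect -/
lemma nb_cases (v : Str (2 * h + 1)) (o : Option (Fin (2 * h + 1))) :
    (WW (nb v o) = WW v ∧ (o = none ∨ o = some (im h))) ∨
    ∃ j : Fin h, WW (nb v o) = flip (WW v) j ∧ (o = some (ix j) ∨ o = some (iy j)) := by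
  cases o with
  | none => exact Or.inl ⟨rfl, Or.inl rfl⟩
  | some i =>
    rcases idx_cases i with ⟨j, rfl⟩ | rfl | ⟨j, rfl⟩
    · exact Or.inr ⟨j, WW_ix v j, Or.inl rfl⟩
    · exact Or.inl ⟨WW_im v, Or.inr rfl⟩
    · exact Or.inr ⟨j, WW_iy v j, Or.inr rfl⟩

theorem vas_perfect {C : Set (Str h)} (hC : IsPerfectCode (cube h) C) (lam : Str h → ZMod 2) :
    IsPerfectCode (cube (2 * h + 1)) (vas C lam) := by
  rw [cube_perfect_iff] at hC ⊢
  intro v
  obtain ⟨c0, ⟨hc0, hn0⟩, hu0⟩ := hC (WW v)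
  -- existence
  have hex : ∃ c, c ∈ vas C lam ∧ Near v c := by
    rcases hn0 with h0 | ⟨j, h0⟩
    · subst h0
      rcases zcases (bt (v (im h))) (par (XX v) + lam (WW v)) with h1 | h1
      · exact ⟨v, ⟨hc0, h1⟩, Or.inl rfl⟩
      · refine ⟨flip v (im h), ⟨?_, ?_⟩, Or.inr ⟨_, rfl⟩⟩
        · rw [WW_im]; exact hc0
        · rw [WW_im, XX_im, flip_same, bt_not, h1, add_assoc, zz, add_zero]
    · subst h0
      rcases zcases (bt (v (im h))) (par (XX v) + lam (flip (WW v) j)) with h1 | h1
      · refine ⟨flip v (iy j), ⟨?_, ?_⟩, Or.inr ⟨_, rfl⟩⟩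
        · rw [WW_iy]; exact hc0
        · rw [WW_iy, XX_iy, mid_iy, h1]
      · refine ⟨flip v (ix j), ⟨?_, ?_⟩, Or.inr ⟨_, rfl⟩⟩
        · rw [WW_ix]; exact hc0
        · rw [WW_ix, XX_ix, mid_ix, par_flip, h1]; ring
  obtain ⟨c, hc, hn⟩ := hex
  refine ⟨c, ⟨hc, hn⟩, ?_⟩
  rintro d ⟨hd, hdn⟩
  obtain ⟨o, rfl⟩ := (near_iff v c).1 hn
  obtain ⟨o', rfl⟩ := (near_iff v d).1 hdn
  have hnear : ∀ o, Near (WW v) (WW (nb v o)) := by
    intro o
    rcases nb_cases v o with ⟨h1, _⟩ | ⟨j, h1, _⟩
    · exact Or.inl h1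
    · exact Or.inr ⟨j, h1⟩
  have e1 := hu0 _ ⟨hc.1, hnear o⟩
  have e2 := hu0 _ ⟨hd.1, hnear o'⟩
  have e3 : WW (nb v o) = WW (nb v o') := by rw [e1, e2]
  have hc2 := hc.2
  have hd2 := hd.2
  rw [e3] at hc2
  rcases nb_cases v o with ⟨h1, h2⟩ | ⟨j, h1, h2⟩ <;>
    rcases nb_cases v o' with ⟨h3, h4⟩ | ⟨l, h3, h4⟩
  · rcases h2 with rfl | rfl <;> rcases h4 with rfl | rfl
    · rfl
    · exfalso
      change bt (flip v (im h) (im h)) = par (XX (flip v (im h))) + _ at hd2
      change bt (v (im h)) = par (XX v) + _ at hc2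
      rw [XX_im, flip_same, bt_not, ← hc2] at hd2
      exact zne _ hd2.symm
    · exfalso
      change bt (flip v (im h) (im h)) = par (XX (flip v (im h))) + _ at hc2
      change bt (v (im h)) = par (XX v) + _ at hd2
      rw [XX_im, flip_same, bt_not, ← hd2] at hc2
      exact zne _ hc2.symm
    · rfl
  · exact absurd (h3.symm.trans (e3.symm.trans h1)) (flip_ne_self _ _)
  · exact absurd (h1.symm.trans (e3.trans h3)) (flip_ne_self _ _)
  · have hjl : j = l := flip_inj (WW v) (h1.symm.trans (e3.trans h3))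
    subst hjl
    rcases h2 with rfl | rfl <;> rcases h4 with rfl | rfl
    · rfl
    · exfalso
      change bt (flip v (ix j) (im h)) = par (XX (flip v (ix j))) + _ at hc2
      change bt (flip v (iy j) (im h)) = par (XX (flip v (iy j))) + _ at hd2
      rw [XX_ix, mid_ix, par_flip] at hc2
      rw [XX_iy, mid_iy] at hd2
      rw [hd2] at hc2
      apply zne (par (XX v) + lam (WW (nb v (some (iy j)))))
      linear_combination hc2
    · exfalso
      change bt (flip v (iy j) (im h)) = par (XX (flip v (iy j))) + _ at hc2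
      change bt (flip v (ix j) (im h)) = par (XX (flip v (ix j))) + _ at hd2
      rw [XX_ix, mid_ix, par_flip] at hd2
      rw [XX_iy, mid_iy] at hc2
      apply zne (par (XX v) + lam (WW (nb v (some (ix j)))))
      linear_combination hd2 - hc2
    · rfl

/-! ### zero runs -/

/-- the letters number `i, …, i + k - 1` of `w` are zeros -/
def ZW (k i : ℕ) (w : Str h) : Prop :=
  i + k ≤ h ∧ ∀ j : Fin h, i ≤ (j : ℕ) → (j : ℕ) < i + k → w j = false

/-- the parity of the first `i` letters -/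
def pre (i : ℕ) (w : Str h) : ZMod 2 := ∑ j : Fin h, if (j : ℕ) < i then bt (w j) else 0

/-- any two runs of `k` zeros have an even number of ones between them -/
def EvenGaps (k : ℕ) (C : Set (Str h)) : Prop :=
  ∀ w ∈ C, ∀ i i', ZW k i w → ZW k i' w → pre i w = pre i' w

open Classical in
/-- the function used in the Vasil'ev code -/
noncomputable def lam (k : ℕ) (w : Str h) : ZMod 2 :=
  if hw : ∃ i, ZW k i w then 1 + pre hw.choose w else 0

lemma lam_eq {k : ℕ} {C : Set (Str h)} (hE : EvenGaps k C) {w : Str h} (hw : w ∈ C) {i : ℕ}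
    (hi : ZW k i w) : lam k w = 1 + pre i w := by
  have hex : ∃ i, ZW k i w := ⟨i, hi⟩
  unfold lam
  rw [dif_pos hex, hE w hw _ i hex.choose_spec hi]

theorem vas_no_run {k : ℕ} {C : Set (Str h)} (hodd : Odd h) (hE : EvenGaps k C) :
    ∀ v ∈ vas C (lam k), ¬ HasRun (h + 1 + k) v := by
  rintro v ⟨hv1, hv2⟩ ⟨i, hi, hr⟩
  have hY : ∀ j : Fin h, (j : ℕ) < i + k → v (iy j) = true := by
    intro j hj
    apply hr
    · simp only [iy]; omega
    · simp only [iy]; omega
  have hX : ∀ j : Fin h, i ≤ (j : ℕ) → v (ix j) = true := by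
    intro j hj
    apply hr
    · simp only [ix]; omega
    · simp only [ix]; have := j.isLt; omega
  have hZ : v (im h) = true := by
    apply hr
    · simp only [im]; omega
    · simp only [im]; omega
  have hzw : ZW k i (WW v) := by
    refine ⟨by omega, fun j h1 h2 => ?_⟩
    simp only [WW]
    rw [hX j h1, hY j h2]; rfl
  rw [lam_eq hE hv1 hzw, hZ] at hv2
  have hp : par (XX v) = (h : ZMod 2) + pre i (WW v) := by
    unfold par pre
    have : (h : ZMod 2) = ∑ _j : Fin h, (1 : ZMod 2) := by simp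
    rw [this, ← Finset.sum_add_distrib]
    apply Finset.sum_congr rfl
    intro j _
    by_cases hj : (j : ℕ) < i
    · rw [if_pos hj]
      simp only [XX, WW]
      rw [bt_xor, hY j (by omega)]
      have : bt true = 1 := rfl
      rw [this]
      linear_combination -zz (1 : ZMod 2)
    · rw [if_neg hj]
      simp only [XX]
      rw [hX j (by omega), add_zero]; rfl
  have h1 : (h : ZMod 2) + 1 = 0 := odd_cast hodd
  rw [hp] at hv2
  have h2 : bt true = 1 := rfl
  rw [h2] at hv2
  have h3 := zz (pre i (WW v))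
  exact zne 0 (by linear_combination -hv2 - h1 - h3)

/-! ### linear codes -/

section Lin

variable {n : ℕ} {V : Type*} [AddCommGroup V]

/-- the syndrome -/
def syn (f : Fin n → V) (x : Str n) : V := ∑ j, if x j then f j else 0

lemma syn_flip (hV : ∀ a : V, a + a = 0) (f : Fin n → V) (x : Str n) (i : Fin n) :
    syn f (flip x i) = syn f x + f i := by
  unfold syn
  rw [← Finset.add_sum_erase _ _ (Finset.mem_univ i), ← Finset.add_sum_erase _ (fun j => if x j
    then f j else 0) (Finset.mem_univ i), flip_same]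
  have : ∑ j ∈ Finset.univ.erase i, (if flip x i j then f j else 0) =
      ∑ j ∈ Finset.univ.erase i, (if x j then f j else 0) := by
    apply Finset.sum_congr rfl
    intro j hj
    rw [flip_ne _ (Finset.ne_of_mem_erase hj)]
  rw [this]
  cases hx : x i
  · simp [add_comm]
  · simp only [Bool.not_true, Bool.false_eq_true, if_false, if_true]
    have := hV (f i)
    rw [zero_add, add_comm (f i), add_assoc, this, add_zero]

theorem lin_perfect (hV : ∀ a : V, a + a = 0) (f : Fin n → V) (hinj : Function.Injective f)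
    (h0 : ∀ j, f j ≠ 0) (hsurj : ∀ v : V, v ≠ 0 → ∃ j, f j = v) :
    IsPerfectCode (cube n) {x : Str n | syn f x = 0} := by
  rw [cube_perfect_iff]
  intro v
  have hneg : ∀ a b : V, a + b = 0 → b = a := by
    intro a b hab
    have := hV a
    have h3 : a + b = a + a := by rw [hab, this]
    exact add_left_cancel h3
  by_cases hv : syn f v = 0
  · refine ⟨v, ⟨hv, Or.inl rfl⟩, ?_⟩
    rintro d ⟨hd, rfl | ⟨i, rfl⟩⟩
    · rfl
    · exfalso
      rw [Set.mem_setOf_eq, syn_flip hV, hv, zero_add] at hd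
      exact h0 i hd
  · obtain ⟨i, hi⟩ := hsurj _ hv
    refine ⟨flip v i, ⟨?_, Or.inr ⟨i, rfl⟩⟩, ?_⟩
    · rw [Set.mem_setOf_eq, syn_flip hV, hi, hV]
    · rintro d ⟨hd, rfl | ⟨l, rfl⟩⟩
      · exact absurd hd hv
      · rw [Set.mem_setOf_eq, syn_flip hV] at hd
        have := hneg _ _ hd
        rw [← hi] at this
        rw [hinj this]

end Lin

end Pool.Agent.KS6_95.PC
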