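import Pool.Agent.KS6_95.PC.Low

set_option autoImplicit false

namespace Pool.Agent.KS6_95.PC

open Finset Pool.Agent.Results.MP_87e4a0_co.PerfectCodes

variable {n : ℕ}

lemma card_Ico_fin (a b : ℕ) (hb : b ≤ n) :
    (Finset.univ.filter fun j : Fin n => a ≤ (j : ℕ) ∧ (j : ℕ) < b).card = b - a := by
  rw [← Nat.card_Ico a b]
  apply Finset.card_bij (fun (j : Fin n) _ => (j : ℕ))
  · intro j hj
    simpa using hj
  · intro i _ j _ h
    exact Fin.ext h
  · intro k hk
    rw [Finset.mem_Ico] at hk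
    exact ⟨⟨k, by omega⟩, by simpa using hk, rfl⟩

/-- Two runs of `s` ones shifted by `d`. -/
theorem windows {D : Set (Str n)} {s d : ℕ} (h : IsPerfectCode (cube n) D)
    (hr : ∀ c ∈ D, ¬ HasRun s c) (hds : d ≤ s) (hn : s + d ≤ n) :
    ((n : ℤ) + 1 - s - d) * (n + 1 - 2 * s + 2 * d) ≤ 2 * d ^ 2 := by
  classical
  set F := Finset.univ.filter fun j : Fin n => d ≤ (j : ℕ) ∧ (j : ℕ) < s with hF
  set A := Finset.univ.filter fun j : Fin n => 0 ≤ (j : ℕ) ∧ (j : ℕ) < d with hA
  set B := Finset.univ.filter fun j : Fin n => s ≤ (j : ℕ) ∧ (j : ℕ) < s + d with hB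
  set R := Finset.univ.filter fun j : Fin n => s + d ≤ (j : ℕ) ∧ (j : ℕ) < n with hR
  have cF : (F.card : ℤ) = s - d := by
    rw [hF, card_Ico_fin _ _ (by omega)]; omega
  have cA : (A.card : ℤ) = d := by
    rw [hA, card_Ico_fin _ _ (by omega)]; omega
  have cB : (B.card : ℤ) = d := by
    rw [hB, card_Ico_fin _ _ (by omega)]; omega
  have cR : (R.card : ℤ) = n - s - d := by
    rw [hR, card_Ico_fin _ _ (by omega)]; omega
  have key := two_faces h F A B R ?_ ?_ ?_ ?_ ?_ ?_
  · rw [cF, cA, cB, cR] at key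
    nlinarith
  · rw [Finset.disjoint_left]
    intro j h1 h2
    simp only [hF, hA, Finset.mem_filter, Finset.mem_univ, true_and] at h1 h2
    omega
  · rw [Finset.disjoint_left]
    intro j h1 h2
    simp only [hF, hB, Finset.mem_filter, Finset.mem_univ, true_and] at h1 h2
    omega
  · rw [Finset.disjoint_left]
    intro j h1 h2
    simp only [hA, hB, Finset.mem_filter, Finset.mem_univ, true_and] at h1 h2
    omega
  · ext j
    have := j.isLt
    simp only [hF, hA, hB, hR, Finset.mem_filter, Finset.mem_univ, true_and, Finset.mem_compl,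
      Finset.mem_union]
    omega
  · intro c hc hh
    refine hr c hc ⟨0, by omega, fun j _ h2 => hh j ?_⟩
    simp only [hF, hA, Finset.mem_filter, Finset.mem_univ, true_and, Finset.mem_union]
    omega
  · intro c hc hh
    refine hr c hc ⟨d, by omega, fun j h1 h2 => hh j ?_⟩
    simp only [hF, hB, Finset.mem_filter, Finset.mem_univ, true_and, Finset.mem_union]
    omega

/-- The lower bound for `s`, for `n = 8 u - 1`. -/
theorem lower {D : Set (Str n)} {s u : ℕ} (h : IsPerfectCode (cube n) D)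
    (hr : ∀ c ∈ D, ¬ HasRun s c) (hu : n + 1 = 8 * u) (hs : n < 2 * s) :
    (6 - Real.sqrt 2) / 8 * ((n : ℝ) + 1) ≤ s := by
  have hnu : (n : ℝ) + 1 = 8 * u := by exact_mod_cast hu
  have h2 : (1 : ℝ) ≤ Real.sqrt 2 := by
    rw [Real.one_le_sqrt]; norm_num
  have hsq : Real.sqrt 2 ^ 2 = 2 := Real.sq_sqrt (by norm_num)
  rw [hnu]
  by_contra hlt
  push Not at hlt
  have hu0 : (0 : ℝ) ≤ u := Nat.cast_nonneg u
  have hs5 : (s : ℝ) < 5 * u := by nlinarith
  have hs5' : s < 5 * u := by exact_mod_cast hs5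
  have key := windows (s := s) (d := u) h hr (by omega) (by omega)
  have hkey : ((n : ℝ) + 1 - s - u) * (n + 1 - 2 * s + 2 * u) ≤ 2 * u ^ 2 := by exact_mod_cast key
  rw [show (n : ℝ) + 1 - s - u = 8 * u - s - u by linarith,
    show (n : ℝ) + 1 - 2 * s + 2 * u = 8 * u - 2 * s + 2 * u by linarith] at hkey
  have ht : Real.sqrt 2 * u < 6 * u - s := by linarith
  have ht0 : 0 ≤ Real.sqrt 2 * u := by positivity
  have : (Real.sqrt 2 * u) ^ 2 < (6 * u - s) ^ 2 := by
    apply pow_lt_pow_left₀ ht ht0 (by norm_num)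
  rw [mul_pow, hsq] at this
  nlinarith

end Pool.Agent.KS6_95.PC
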